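import Pool.Agent.Helper93.PL.St

/-! PL module BXC: the boxes of the classes have almost the same size. -/

set_option autoImplicit false

namespace Pool.Agent.Helper64.PL

open Pool.Agent.Helper61.PV Finset

private theorem memBx {d : ℕ} (A : Fin (d + 1) → ℤ) (h : Fin (d + 1) → ℕ) (g : Fin (d + 1) → ℤ) :
    g ∈ Bx A h ↔ ∀ k, A k ≤ g k ∧ g k < A k + h k := by
  simp [Bx, Fintype.mem_piFinset]

/-- one coordinate of the box -/
private theorem updBx {d : ℕ} {A : Fin (d + 1) → ℤ} {h : Fin (d + 1) → ℕ} (hp : ∀ k, 0 < h k)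
    (i : Fin (d + 1)) (n : ℤ) :
    Function.update A i n ∈ Bx A h ↔ A i ≤ n ∧ n < A i + h i := by
  rw [memBx]
  constructor
  · intro H
    have := H i
    simpa using this
  · intro H k
    by_cases hk : k = i
    · subst hk
      simpa using H
    · rw [Function.update_of_ne hk]
      have := hp k
      refine ⟨le_rfl, ?_⟩
      have h2 : (0 : ℤ) < (h k : ℤ) := by exact_mod_cast this
      linarith

/-- size of an interval given by `lo ≤ f + W n ≤ up` -/
private theorem size_int {W f lo up a : ℤ} {m : ℕ} (hW : 0 < W) (hm : 0 < m)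
    (H : ∀ n : ℤ, (a ≤ n ∧ n < a + m) ↔ (lo ≤ f + W * n ∧ f + W * n ≤ up)) :
    up - lo - W < W * m ∧ W * m ≤ up - lo + W := by
  have hm' : (0 : ℤ) < (m : ℤ) := by exact_mod_cast hm
  have h1 := (H a).1 ⟨le_rfl, by linarith⟩
  have h2 := (H (a + m - 1)).1 ⟨by linarith, by linarith⟩
  have h3 : ¬ (lo ≤ f + W * (a - 1) ∧ f + W * (a - 1) ≤ up) := fun hh => by
    have := (H (a - 1)).2 hh
    linarith [this.1]
  have h4 : ¬ (lo ≤ f + W * (a + m) ∧ f + W * (a + m) ≤ up) := fun hh => by
    have := (H (a + m)).2 hh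
    linarith [this.2]
  have h5 : f + W * (a - 1) < lo := by
    by_contra hc
    push Not at hc
    exact h3 ⟨hc, by nlinarith [h1.2]⟩
  have h6 : up < f + W * (a + m) := by
    by_contra hc
    push Not at hc
    refine h4 ⟨?_, hc⟩
    have : 0 ≤ W * m := by positivity
    nlinarith [h1.1]
  constructor
  · nlinarith
  · nlinarith [h1.1, h2.2]

/-- the numbers -/
private theorem num {W H κ ε : ℝ} {d : ℕ} {a : Fin d → ℝ} {b : ℝ} (hW : 1 ≤ W) (hH : 1 ≤ H) (hκ : 0 < κ)
    (hκ4 : κ ≤ 1 / 4) (hκε : 2 * κ ≤ ε) (hx : ((d : ℝ) + 1) * (W + 1) / H ≤ min (ε / 2) (1 / 2))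
    (ha : ∀ i, 2 * H - W ≤ a i ∧ a i ≤ 2 * H + W) (hb : (1 - κ) * H - (W + 1) ≤ b ∧ b ≤ H + W) :
    |(∏ i, a i) * b - (2 * H + 1) ^ d * H| ≤ ε * ((2 * H + 1) ^ d * H) := by
  have hH0 : 0 < H := by linarith
  set x : ℝ := (W + 1) / H with hxd
  have hx0 : 0 < x := by positivity
  have hxe : ((d : ℝ) + 1) * x ≤ ε / 2 := by
    have := hx.trans (min_le_left _ _)
    rw [hxd, ← mul_div_assoc]
    exact this
  have hxh : ((d : ℝ) + 1) * x ≤ 1 / 2 := by
    have := hx.trans (min_le_right _ _)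
    rw [hxd, ← mul_div_assoc]
    exact this
  have hd0 : (0 : ℝ) ≤ d := Nat.cast_nonneg d
  have hx1 : x ≤ 1 / 2 := by nlinarith
  have hWx : W + 1 = x * H := by
    rw [hxd]
    field_simp
  have hP : 0 < (2 * H + 1) ^ d * H := by positivity
  -- each factor
  have hal : ∀ i, (2 * H + 1) * (1 - x) ≤ a i := by
    intro i
    have := (ha i).1
    nlinarith
  have hau : ∀ i, a i ≤ (2 * H + 1) * Real.exp x := by
    intro i
    have h1 := (ha i).2
    have h2 := Real.add_one_le_exp x
    nlinarith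
  have hbl : H * (1 - κ - x) ≤ b := by
    have := hb.1
    nlinarith
  have hbu : b ≤ H * Real.exp x := by
    have h1 := hb.2
    have h2 := Real.add_one_le_exp x
    nlinarith
  have ha0 : ∀ i, 0 ≤ a i := fun i => le_trans (by nlinarith) (hal i)
  have hb0 : 0 ≤ b := le_trans (by nlinarith) hbl
  -- upper bound
  have hup : (∏ i, a i) * b ≤ (1 + ε) * ((2 * H + 1) ^ d * H) := by
    have h1 : ∏ i, a i ≤ ((2 * H + 1) * Real.exp x) ^ d := by
      have := Finset.prod_le_prod (s := (univ : Finset (Fin d))) (fun i _ => ha0 i) (fun i _ => hau i)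
      simpa using this
    have h2 : (∏ i, a i) * b ≤ ((2 * H + 1) * Real.exp x) ^ d * (H * Real.exp x) :=
      mul_le_mul h1 hbu hb0 (by positivity)
    have h3 : ((2 * H + 1) * Real.exp x) ^ d * (H * Real.exp x) =
        Real.exp (((d : ℝ) + 1) * x) * ((2 * H + 1) ^ d * H) := by
      rw [mul_pow, ← Real.exp_nat_mul, add_mul, Real.exp_add, one_mul]
      ring
    have h4 : Real.exp (((d : ℝ) + 1) * x) ≤ 1 + ε := by
      set y := ((d : ℝ) + 1) * x
      have hy0 : 0 ≤ y := by positivity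
      have h5 : Real.exp y ≤ 1 / (1 - y) := by
        have h6 := Real.add_one_le_exp (-y)
        rw [Real.exp_neg] at h6
        have h7 : 0 < 1 - y := by linarith
        rw [le_div_iff₀ h7]
        have h8 : 0 < Real.exp y := Real.exp_pos y
        have h9 : 1 - y ≤ (Real.exp y)⁻¹ := by linarith
        calc Real.exp y * (1 - y) ≤ Real.exp y * (Real.exp y)⁻¹ := by gcongr
          _ = 1 := mul_inv_cancel₀ h8.ne'
      have h10 : 1 / (1 - y) ≤ 1 + 2 * y := by
        have h7 : 0 < 1 - y := by linarith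
        rw [div_le_iff₀ h7]
        nlinarith
      linarith
    calc (∏ i, a i) * b ≤ _ := h2
      _ = _ := h3
      _ ≤ _ := by gcongr
  have hlo : (1 - ε) * ((2 * H + 1) ^ d * H) ≤ (∏ i, a i) * b := by
    have h1 : ((2 * H + 1) * (1 - x)) ^ d ≤ ∏ i, a i := by
      have := Finset.prod_le_prod (s := (univ : Finset (Fin d)))
        (fun i _ => (by nlinarith : (0 : ℝ) ≤ (2 * H + 1) * (1 - x))) (fun i _ => hal i)
      simpa using this
    have h2 : ((2 * H + 1) * (1 - x)) ^ d * (H * (1 - κ - x)) ≤ (∏ i, a i) * b :=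
      mul_le_mul h1 hbl (by nlinarith) (Finset.prod_nonneg fun i _ => ha0 i)
    have h3 : 1 - d * x ≤ (1 - x) ^ d := by
      have := one_add_mul_le_pow (a := -x) (by linarith) d
      have e : (1 : ℝ) + -x = 1 - x := by ring
      rw [e] at this
      linarith
    have h4 : 1 - ε ≤ (1 - x) ^ d * (1 - κ - x) := by
      have h5 : (1 - d * x) * (1 - κ - x) ≤ (1 - x) ^ d * (1 - κ - x) :=
        mul_le_mul_of_nonneg_right h3 (by linarith)
      have h6 : 1 - κ - (d + 1) * x ≤ (1 - d * x) * (1 - κ - x) := by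
        have : 0 ≤ (d : ℝ) * x * (κ + x) := by positivity
        nlinarith
      linarith
    calc (1 - ε) * ((2 * H + 1) ^ d * H) ≤ ((1 - x) ^ d * (1 - κ - x)) * ((2 * H + 1) ^ d * H) := by gcongr
      _ = ((2 * H + 1) * (1 - x)) ^ d * (H * (1 - κ - x)) := by rw [mul_pow]; ring
      _ ≤ _ := h2
  rw [abs_le]
  constructor <;> linarith

theorem hBxc (hCar : StCar) : Pool.Agent.Helper93.PL.StBxc := by
  intro W κ ε hW hκ hκ4 hε hκε
  set δ : ℝ := min (ε / 2) (1 / 2) with hδd
  have hδ : 0 < δ := lt_min (by linarith) (by norm_num)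
  obtain ⟨N, hN⟩ := exists_nat_ge ((((W : ℝ) + 1) / δ) ^ 2)
  refine ⟨max N 3, fun H hH d hd F A h hF hC hB => ?_⟩
  have hHN : N ≤ H := (le_max_left _ _).trans hH
  have hH3 : 3 ≤ H := (le_max_right _ _).trans hH
  have hHr3 : (3 : ℝ) ≤ H := by exact_mod_cast hH3
  have hH0 : (0 : ℝ) < H := by linarith
  have hWr : (1 : ℝ) ≤ W := by exact_mod_cast hW
  have hWz : (0 : ℤ) < W := by exact_mod_cast hW
  have hlog : 1 ≤ Real.log H := by
    rw [Real.le_log_iff_exp_le hH0]
    linarith [Real.exp_one_lt_d9]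
  -- the small quantity
  have hx : ((d : ℝ) + 1) * (W + 1) / H ≤ δ := by
    have h1 : ((d : ℝ) + 1) ^ 2 ≤ H := by
      have h2 : ((d : ℝ) + 1) ^ 2 ≤ ((d : ℝ) + 1) ^ 40 :=
        pow_le_pow_right₀ (by linarith [(Nat.cast_nonneg d : (0 : ℝ) ≤ d)]) (by norm_num)
      have h3 : ((d : ℝ) + 1) ^ 40 ≤ (Real.log H + d) ^ 40 := by
        apply pow_le_pow_left₀ (by positivity)
        linarith
      linarith
    have h2 : (((W : ℝ) + 1) / δ) ^ 2 ≤ H := hN.trans (by exact_mod_cast hHN)
    have h3 : (((d : ℝ) + 1) * (((W : ℝ) + 1) / δ)) ^ 2 ≤ (H : ℝ) ^ 2 := by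
      rw [mul_pow, sq (H : ℝ)]
      exact mul_le_mul h1 h2 (by positivity) hH0.le
    have h4 : ((d : ℝ) + 1) * (((W : ℝ) + 1) / δ) ≤ H :=
       (pow_le_pow_iff_left₀ (by positivity) hH0.le two_ne_zero).1 h3
    rw [div_le_iff₀ hH0]
    rw [← mul_div_assoc, div_le_iff₀ hδ] at h4
    linarith
  -- positivity of the sides
  have hp : ∀ i, 0 < h i := by
    intro i
    have h1 := hC.2.1 i
    have h2 : 0 < κ * H := by positivity
    have h3 : (0 : ℝ) < W * h i := lt_of_lt_of_le h2 h1
    have h4 : (0 : ℝ) < h i := by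
      by_contra hc
      push Not at hc
      have : (W : ℝ) * h i ≤ 0 := mul_nonpos_of_nonneg_of_nonpos (by linarith) hc
      linarith
    exact_mod_cast h4
  have hAm : A ∈ Bx A h := by
    have := (updBx (A := A) hp (Fin.last d) (A (Fin.last d))).2
      ⟨le_rfl, by have := hp (Fin.last d); omega⟩
    simpa using this
  have hA' := (hB A).1 hAm
  have hA1 := hA'.1
  rw [Bxx, memBx] at hA1
  have hlast : ¬ ((Fin.last d : Fin (d + 1)) : ℕ) < d := by simp
  -- low coordinates
  have hlow : ∀ i : Fin d, ((2 * H - W : ℤ) ≤ W * h i.castSucc) ∧ ((W : ℤ) * h i.castSucc ≤ 2 * H + W) := by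
    intro i
    have hi : ((i.castSucc : Fin (d + 1)) : ℕ) < d := by simp
    have hne : (Fin.last d) ≠ i.castSucc := (Fin.castSucc_lt_last i).ne'
    have hcond : ∀ n : ℤ, (A i.castSucc ≤ n ∧ n < A i.castSucc + h i.castSucc) ↔
        (-(H : ℤ) ≤ F i.castSucc + W * n ∧ F i.castSucc + W * n ≤ H) := by
      intro n
      rw [← updBx hp, hB, Bxx, memBx]
      constructor
      · rintro ⟨h1, -⟩
        have h2 := h1 i.castSucc
        simp only [lin, Function.update_self, if_pos hi] at h2
        push_cast at h2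
        exact ⟨h2.1, by linarith [h2.2]⟩
      · rintro ⟨h1, h2⟩
        refine ⟨fun k => ?_, ?_⟩
        · by_cases hk : k = i.castSucc
          · subst hk
            simp only [lin, Function.update_self, if_pos hi]
            push_cast
            exact ⟨h1, by linarith⟩
          · have h3 := hA1 k
            simp only [lin, Function.update_of_ne hk] at h3 ⊢
            exact h3
        · have h3 := hA'.2
          simp only [lin, Function.update_of_ne hne] at h3 ⊢
          exact h3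
    have := size_int hWz (hp i.castSucc) hcond
    constructor
    · linarith [this.1]
    · linarith [this.2]
  -- the last coordinate
  have hhi : ((1 - κ) * H - (W + 1) ≤ (W : ℝ) * h (Fin.last d)) ∧ ((W : ℝ) * h (Fin.last d) ≤ H + W) := by
    set K : ℤ := max 1 ⌈κ * H⌉ with hK
    have hK1 : 1 ≤ K := le_max_left _ _
    have hK3 : (K : ℝ) ≤ κ * H + 1 := by
      have h1 : (⌈κ * H⌉ : ℝ) < κ * H + 1 := Int.ceil_lt_add_one _
      have h0 : 0 ≤ κ * H := by positivity
      rw [hK]
      push_cast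
      exact max_le (by linarith) h1.le
    have hcond : ∀ n : ℤ, (A (Fin.last d) ≤ n ∧ n < A (Fin.last d) + h (Fin.last d)) ↔
        (K ≤ F (Fin.last d) + W * n ∧ F (Fin.last d) + W * n ≤ H) := by
      intro n
      rw [← updBx hp, hB, Bxx, memBx]
      constructor
      · rintro ⟨h1, h4⟩
        have h2 := h1 (Fin.last d)
        simp only [lin, Function.update_self, if_neg hlast] at h2 h4
        refine ⟨?_, by linarith [h2.2]⟩
        rw [hK]
        refine max_le h2.1 ?_
        rw [Int.ceil_le]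
        exact h4
      · rintro ⟨h1, h2⟩
        refine ⟨fun k => ?_, ?_⟩
        · by_cases hk : k = Fin.last d
          · subst hk
            simp only [lin, Function.update_self, if_neg hlast]
            exact ⟨hK1.trans h1, by linarith⟩
          · have h3 := hA1 k
            simp only [lin, Function.update_of_ne hk] at h3 ⊢
            exact h3
        · simp only [lin, Function.update_self]
          have h5 : ⌈κ * H⌉ ≤ F (Fin.last d) + W * n := (le_max_right _ _).trans h1
          exact Int.ceil_le.1 h5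
    have h7 := size_int hWz (hp (Fin.last d)) hcond
    have h8 : (((H : ℤ) - K - W : ℤ) : ℝ) < (((W : ℤ) * h (Fin.last d) : ℤ) : ℝ) := by exact_mod_cast h7.1
    have h9 : (((W : ℤ) * h (Fin.last d) : ℤ) : ℝ) ≤ (((H : ℤ) - K + W : ℤ) : ℝ) := by exact_mod_cast h7.2
    push_cast at h8 h9
    have hK1r : (1 : ℝ) ≤ K := by exact_mod_cast hK1
    constructor
    · linarith
    · linarith
  -- cardinality of the big box
  have hcard : (#(Bxx d H) : ℝ) = (2 * (H : ℝ) + 1) ^ d * H := by
    rw [Bxx, (hCar d _ _).1, Fin.prod_univ_castSucc]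
    simp only [Fin.val_castSucc, Fin.is_lt, if_true, Fin.val_last, lt_irrefl, if_false, prod_const,
      card_univ, Fintype.card_fin]
    push_cast
    ring
  have hmain := num (W := W) (H := H) (κ := κ) (ε := ε) (d := d) (a := fun i => (W : ℝ) * h i.castSucc)
    (b := (W : ℝ) * h (Fin.last d)) hWr (by linarith) hκ hκ4 hκε hx
    (fun i => ⟨by exact_mod_cast (hlow i).1, by exact_mod_cast (hlow i).2⟩) hhi
  have hWp : (0 : ℝ) < (W : ℝ) ^ (d + 1) := by positivity
  have hprod : (∏ i : Fin d, (W : ℝ) * h i.castSucc) * ((W : ℝ) * h (Fin.last d)) =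
      (W : ℝ) ^ (d + 1) * ∏ i, (h i : ℝ) := by
    rw [Fin.prod_univ_castSucc, prod_mul_distrib]
    simp only [prod_const, card_univ, Fintype.card_fin]
    ring
  rw [hprod, ← hcard] at hmain
  have e1 : (∏ i, (h i : ℝ)) - #(Bxx d H) / ((W : ℝ) ^ (d + 1)) =
      ((W : ℝ) ^ (d + 1) * (∏ i, (h i : ℝ)) - #(Bxx d H)) / (W : ℝ) ^ (d + 1) := by
    field_simp
  rw [e1, abs_div, abs_of_pos hWp, ← mul_div_assoc]
  gcongr

end Pool.Agent.Helper64.PL
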